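import Mathlib

/-!
# Rooted trees: the parent function
-/

set_option autoImplicit false

namespace Q223.TR

open SimpleGraph

variable {V : Type*} {G : SimpleGraph V}

theorem parent_unique (hG : G.IsTree) (r : V) {v w w' : V} (h : G.Adj w v) (h' : G.Adj w' v)
    (hd : G.dist r w + 1 = G.dist r v) (hd' : G.dist r w' + 1 = G.dist r v) : w = w' := by
  classical
  obtain ⟨q, hq, hqd⟩ := (hG.connected r v).exists_path_of_dist
  have key : ∀ x, G.Adj x v → G.dist r x + 1 = G.dist r v → q.penultimate = x := by
    intro x hx hdx
    obtain ⟨p, hp, hpd⟩ := (hG.connected r x).exists_path_of_dist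
    have hv : v ∉ p.support := by
      intro hv
      have h1 : G.dist r v ≤ (p.takeUntil v hv).length := dist_le _
      have h2 : (p.takeUntil v hv).length ≤ p.length := p.length_takeUntil_le_length hv
      omega
    have hx' : x ∈ q.support :=
      hG.isAcyclic.mem_support_of_ne_mem_support_of_adj_of_isPath hq hp hx.symm hv
    rw [hG.isAcyclic.path_concat hp hq hx hx']
    simp
  rw [← key w h hd, ← key w' h' hd']

theorem exists_parent (hG : G.IsTree) (r : V) {v : V} (hv : v ≠ r) :
    ∃ w, G.Adj w v ∧ G.dist r w + 1 = G.dist r v := by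
  classical
  obtain ⟨q, hq, hqd⟩ := (hG.connected r v).exists_path_of_dist
  have hnil : ¬ q.Nil := by
    intro h
    exact hv h.eq.symm
  have hadj := q.adj_penultimate hnil
  refine ⟨q.penultimate, hadj, ?_⟩
  have h1 : G.dist r q.penultimate ≤ q.dropLast.length := dist_le _
  have h2 : q.dropLast.length + 1 = q.length := by
    have h3 : 0 < q.length := by
      rw [Nat.pos_iff_ne_zero]
      intro h0
      exact hnil (SimpleGraph.Walk.length_eq_zero_iff.1 h0)
    rw [SimpleGraph.Walk.length_dropLast]
    omega
  have h3 := hG.dist_eq_dist_add_one_of_adj r hadj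
  omega

open Classical in
/-- The parent of `v` in the tree rooted at `r` (and `r` itself for `v = r`). -/
noncomputable def par (hG : G.IsTree) (r v : V) : V :=
  if h : v ≠ r then (exists_parent hG r h).choose else r

theorem par_adj (hG : G.IsTree) (r : V) {v : V} (hv : v ≠ r) : G.Adj (par hG r v) v := by
  unfold par
  rw [dif_pos hv]
  exact (exists_parent hG r hv).choose_spec.1

theorem par_dist (hG : G.IsTree) (r : V) {v : V} (hv : v ≠ r) :
    G.dist r (par hG r v) + 1 = G.dist r v := by
  unfold par
  rw [dif_pos hv]
  exact (exists_parent hG r hv).choose_spec.2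

theorem adj_cases (hG : G.IsTree) (r : V) {x y : V} (h : G.Adj x y) :
    (y ≠ r ∧ par hG r y = x) ∨ (x ≠ r ∧ par hG r x = y) := by
  rcases hG.dist_eq_dist_add_one_of_adj r h with h1 | h1
  · right
    have hx : x ≠ r := by
      rintro rfl
      rw [dist_self] at h1
      omega
    exact ⟨hx, parent_unique hG r (par_adj hG r hx) h.symm (par_dist hG r hx) h1.symm⟩
  · left
    have hy : y ≠ r := by
      rintro rfl
      rw [dist_self] at h1
      omega
    exact ⟨hy, parent_unique hG r (par_adj hG r hy) h (par_dist hG r hy) h1.symm⟩

/-- Definition of a predicate on the vertices from the root downwards. -/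
theorem exists_top_down (hG : G.IsTree) (r : V) {α : Type*} (base : α) (step : V → α → α) :
    ∃ f : V → α, f r = base ∧ ∀ v, v ≠ r → f v = step v (f (par hG r v)) := by
  classical
  let F : (n : ℕ) → V → α := fun n => Nat.rec (fun _ => base)
    (fun _ g v => if v = r then base else step v (g (par hG r v))) n
  have hF : ∀ n v, F (n + 1) v = if v = r then base else step v (F n (par hG r v)) := fun n v => rfl
  refine ⟨fun v => F (G.dist r v) v, ?_, ?_⟩
  · show F (G.dist r r) r = base
    rw [dist_self]
    rfl
  · intro v hv
    show F (G.dist r v) v = step v (F (G.dist r (par hG r v)) (par hG r v))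
    have h1 := par_dist hG r hv
    rw [← h1, hF, if_neg hv]

end Q223.TR
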